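import Pool.Agent.Lib.MP_02a407_al.Q2.FinalAll

/-!
# Generators of the stable center of the finite general linear groups

Let `K` be a finite field. The stable center `𝒢(q)` of the groups `GL_n(K)`, that is the
commutative ring `R` with `ℤ`-basis `b C` indexed by the conjugacy classes `C` of `GL_∞(K)` and with
product `b C * b D = ∑ a^E_{CD} b E`, the sum over the `E` with `ℓ(E) = ℓ(C) + ℓ(D)`, exists, and
`ℚ ⊗ R` is the polynomial algebra over `ℚ` on the single cycle class elements.
-/

namespace Pool.Agent.Results.MP_02a407_al.PolynomialRing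

open Module TensorProduct Pool.Agent.Lib.MP_02a407_al

open Classical in
theorem result (K : Type) [Field K] [Finite K] :
    ∃ (R : Type) (_ : CommRing R) (b : Basis (ConjClasses (GInf K)) ℤ R)
      (c : CycleIndex K → GInf K),
      (∀ x y z : GInf K,
        b.repr (b (ConjClasses.mk x) * b (ConjClasses.mk y)) (ConjClasses.mk z) =
          if rlen z = rlen x + rlen y then
            (Nat.card {p : GInf K × GInf K // IsConj x p.1 ∧ IsConj y p.2 ∧ p.1 * p.2 = z} : ℤ)
          else 0) ∧
      (∀ s g, IsSingleCycle s g ↔ IsConj (c s) g) ∧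
      Function.Bijective
        (MvPolynomial.aeval (fun s : CycleIndex K => (1 : ℚ) ⊗ₜ[ℤ] b (ConjClasses.mk (c s))) :
          MvPolynomial (CycleIndex K) ℚ →ₐ[ℚ] ℚ ⊗[ℤ] R) :=
  final_all K

end Pool.Agent.Results.MP_02a407_al.PolynomialRing
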